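import Pool.Agent.W559.Wr.Stm

set_option autoImplicit false
set_option linter.unusedSectionVars false

open Pool.Agent.W559.Wr TensorProduct IntermediateField

universe u

namespace Pool.Agent.W632.Wr

section

variable {k K M : Type u} [Field k] [Field K] [Algebra k K] [Field M] [Algebra k M]

/-- the field where two homomorphisms agree -/
def eqField {L : Type u} [Field L] [Algebra k L] (f f' : L →ₐ[k] M) : IntermediateField k L where
  carrier := {x | f x = f' x}
  mul_mem' := by
    intro a b ha hb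
    simp only [Set.mem_ofPred_eq] at *
    rw [map_mul, map_mul, ha, hb]
  add_mem' := by
    intro a b ha hb
    simp only [Set.mem_ofPred_eq] at *
    rw [map_add, map_add, ha, hb]
  algebraMap_mem' := by
    intro r
    simp only [Set.mem_ofPred_eq]
    rw [AlgHom.commutes, AlgHom.commutes]
  inv_mem' := by
    intro a ha
    simp only [Set.mem_ofPred_eq] at *
    rw [map_inv₀, map_inv₀, ha]

theorem mem_eqField {L : Type u} [Field L] [Algebra k L] (f f' : L →ₐ[k] M) (x : L) :
    x ∈ eqField f f' ↔ f x = f' x := Iff.rfl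

theorem hom_eq_of_gen {L : Type u} [Field L] [Algebra k L] {ι : Type} (e : ι → K →ₐ[k] L)
    (h : ⨆ i, (e i).fieldRange = ⊤) (f f' : L →ₐ[k] M) (hf : ∀ i x, f (e i x) = f' (e i x))
    (x : L) : f x = f' x := by
  have h1 : (⨆ i, (e i).fieldRange) ≤ eqField f f' := by
    refine iSup_le fun i => ?_
    rintro _ ⟨y, rfl⟩
    exact hf i y
  rw [h] at h1
  exact h1 (IntermediateField.mem_top (x := x))

/-- restriction of the codomain -/
def toSub (L : IntermediateField k M) (f : K →ₐ[k] M) (h : f.fieldRange ≤ L) : K →ₐ[k] L where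
  toFun x := ⟨f x, h ⟨x, rfl⟩⟩
  map_one' := by
    apply Subtype.ext
    exact map_one f
  map_mul' x y := by
    apply Subtype.ext
    exact map_mul f x y
  map_zero' := by
    apply Subtype.ext
    exact map_zero f
  map_add' x y := by
    apply Subtype.ext
    exact map_add f x y
  commutes' r := by
    apply Subtype.ext
    exact f.commutes r

theorem toSub_coe (L : IntermediateField k M) (f : K →ₐ[k] M) (h : f.fieldRange ≤ L) (x : K) :
    ((toSub L f h x : L) : M) = f x := rfl

theorem mulM_tprod {J : Type} [Fintype J] {N : J → Type u} [∀ j, Field (N j)]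
    [∀ j, Algebra k (N j)] (e : ∀ j, N j →ₐ[k] M) (x : ∀ j, N j) :
    mulM e (PiTensorProduct.tprod k x) = ∏ j, e j (x j) := by
  unfold mulM
  rw [PiTensorProduct.lift.tprod]
  rfl

/-- linear disjointness in a subfield -/
theorem ldis_toSub {J : Type} [Fintype J] (L : IntermediateField k M) (e : J → K →ₐ[k] M)
    (h : ∀ j, (e j).fieldRange ≤ L) (hd : LDis e) :
    LDis (M := L) (fun j => toSub L (e j) (h j)) := by
  unfold LDis at *
  have hc : mulM e = L.val.toLinearMap ∘ₗ mulM (M := L) (fun j => toSub L (e j) (h j)) := by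
    apply PiTensorProduct.ext
    ext x
    simp only [LinearMap.compMultilinearMap_apply, LinearMap.comp_apply]
    rw [mulM_tprod, mulM_tprod]
    simp only [AlgHom.toLinearMap_apply, map_prod]
    rfl
  rw [hc, LinearMap.coe_comp] at hd
  exact Function.Injective.of_comp hd

theorem gen_toSub {J : Type} (L : IntermediateField k M) (e : J → K →ₐ[k] M)
    (hL : L = ⨆ j, (e j).fieldRange) (h : ∀ j, (e j).fieldRange ≤ L) :
    ⨆ j, (toSub L (e j) (h j)).fieldRange = ⊤ := by
  apply IntermediateField.map_injective L.val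
  rw [IntermediateField.map_iSup]
  have h1 : ∀ j, IntermediateField.map L.val (toSub L (e j) (h j)).fieldRange
      = (e j).fieldRange := by
    intro j
    ext x
    constructor
    · rintro ⟨_, ⟨y, rfl⟩, rfl⟩
      exact ⟨y, rfl⟩
    · rintro ⟨y, rfl⟩
      exact ⟨_, ⟨y, rfl⟩, rfl⟩
  simp_rw [h1]
  rw [← hL]
  have := IntermediateField.lift_top (F := k) L
  exact this.symm

/-- the linear disjointness of two fields in the sense of Mathlib -/
theorem linDis_of_ldis (L : Bool → IntermediateField k M) (h : LDis fun j => (L j).val) :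
    (L true).LinearDisjoint (L false) := by
  classical
  let b : ∀ j : Bool, Module.Basis (Module.Basis.ofVectorSpaceIndex k (L j)) k (L j) :=
    fun j => Module.Basis.ofVectorSpace k (L j)
  apply IntermediateField.LinearDisjoint.of_basis_mul (b true) (b false)
  have h1 : LinearIndependent k (fun p : ∀ j, Module.Basis.ofVectorSpaceIndex k (L j) =>
      (mulM fun j => (L j).val) (Basis.piTensorProduct b p)) :=
    (Basis.piTensorProduct b).linearIndependent.map' _ (LinearMap.ker_eq_bot.2 h)
  let φ : (Module.Basis.ofVectorSpaceIndex k (L true) ×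
      Module.Basis.ofVectorSpaceIndex k (L false)) →
      (∀ j : Bool, Module.Basis.ofVectorSpaceIndex k (L j)) := fun q j =>
    match j with
    | true => q.1
    | false => q.2
  have hφ : Function.Injective φ := by
    intro q q' hq
    have e1 := congrFun hq true
    have e2 := congrFun hq false
    exact Prod.ext e1 e2
  have h2 := h1.comp φ hφ
  refine (linearIndependent_equiv' (Equiv.refl _) ?_).1 h2
  funext q
  simp only [Function.comp_apply, Equiv.coe_refl, id_eq]
  rw [Basis.piTensorProduct_apply, mulM_tprod, Fintype.prod_bool]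
  rfl

end

/-- one block -/
theorem block (h1 : LiftStm.{u}) (h3 : ResStm.{u}) (h6 : IsoStm.{u})
    {k K M : Type u} [Field k] [Field K] [Algebra k K] [Field M] [Algebra k M]
    {I J : Type} [Fintype I] [Fintype J] (e : I → K →ₐ[k] M) (hd : LDis e)
    (s : J → I) (hs : Function.Injective s) (P : Subgroup (Equiv.Perm J)) (hq : QQ k J P)
    (G : Subgroup (M ≃ₐ[k] M))
    (ha : ∀ σ ∈ G, ∃ g ∈ P, ∀ i x, σ (e (s i) x) = e (s (g i)) x)
    (hb : ∀ g ∈ P, ∃ σ ∈ G, ∀ i x, σ (e (s i) x) = e (s (g i)) x) (hK : SPM k K)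
    (L : IntermediateField k M) (hL : L = ⨆ i, (e (s i)).fieldRange) :
    SPM k ↥(L ⊓ IntermediateField.fixedField G) := by
  have hle : ∀ i, (e (s i)).fieldRange ≤ L := by
    intro i
    rw [hL]
    exact le_iSup (fun i => (e (s i)).fieldRange) i
  have hd1 : LDis fun j => (e (s j)).comp (AlgHom.id k K) :=
    h3 k M I J (fun _ => K) e hd s hs (fun _ => K) (fun _ => AlgHom.id k K)
  have hd2 : LDis fun j => e (s j) := by
    simpa using hd1
  have hd3 := ldis_toSub L (fun j => e (s j)) hle hd2
  have hg := gen_toSub L (fun j => e (s j)) hL hle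
  have hS := hq K L _ hd3 hg hK
  refine h6 k _ _ ?_ hS
  have hlift : IntermediateField.lift (IntermediateField.fixedField
      (permGrp (fun j => toSub L (e (s j)) (hle j)) P)) = L ⊓ IntermediateField.fixedField G := by
    ext x
    constructor
    · intro hx
      have hxL : x ∈ L := IntermediateField.lift_le _ hx
      refine ⟨hxL, ?_⟩
      have hx' := (IntermediateField.mem_lift (⟨x, hxL⟩ : L)).1 hx
      rintro ⟨σ, hσ⟩
      obtain ⟨g, hgP, hσg⟩ := ha σ hσ
      obtain ⟨τ, hτ⟩ := h1 k K L J _ hd3 hg g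
      have hfix : τ ⟨x, hxL⟩ = ⟨x, hxL⟩ := by
        have := hx' ⟨τ, ⟨g, hgP, hτ⟩⟩
        exact this
      have hag := hom_eq_of_gen _ hg (σ.toAlgHom.comp L.val) (L.val.comp τ.toAlgHom) (by
        intro i y
        have e1 : τ (toSub L (e (s i)) (hle i) y) = toSub L (e (s (g i))) (hle (g i)) y :=
          hτ i y
        change σ (e (s i) y) = ((τ (toSub L (e (s i)) (hle i) y) : L) : M)
        rw [e1]
        exact hσg i y) ⟨x, hxL⟩
      have hag' : σ x = ((τ ⟨x, hxL⟩ : L) : M) := hag
      rw [hfix] at hag'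
      exact hag'
    · rintro ⟨hxL, hx⟩
      have hx : x ∈ IntermediateField.fixedField G := hx
      apply (IntermediateField.mem_lift (⟨x, hxL⟩ : L)).2
      rintro ⟨τ, ⟨g, hgP, hτ⟩⟩
      obtain ⟨σ, hσG, hσg⟩ := hb g hgP
      have hag := hom_eq_of_gen _ hg (σ.toAlgHom.comp L.val) (L.val.comp τ.toAlgHom) (by
        intro i y
        have e1 : τ (toSub L (e (s i)) (hle i) y) = toSub L (e (s (g i))) (hle (g i)) y :=
          hτ i y
        change σ (e (s i) y) = ((τ (toSub L (e (s i)) (hle i) y) : L) : M)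
        rw [e1]
        exact hσg i y) ⟨x, hxL⟩
      have hag' : σ x = ((τ ⟨x, hxL⟩ : L) : M) := hag
      apply Subtype.ext
      have h5 : σ x = x := hx ⟨σ, hσG⟩
      change ((τ ⟨x, hxL⟩ : L) : M) = x
      exact (hag'.symm.trans h5)
  exact (IntermediateField.liftAlgEquiv _).trans (IntermediateField.equivOfEq hlift)

/-- the compositum of two linearly disjoint function fields of smooth projective varieties -/
theorem sup_spm (h5 : ProdStm.{u}) (h6 : IsoStm.{u})
    {k M : Type u} [Field k] [Field M] [Algebra k M] (F F' : IntermediateField k M)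
    (hd : F.LinearDisjoint F') (hF : SPM k F) (hF' : SPM k F') :
    SPM k ↥(F ⊔ F') := by
  have l1 : F ≤ F ⊔ F' := le_sup_left
  have l2 : F' ≤ F ⊔ F' := le_sup_right
  refine h5 k ↥(F ⊔ F') (IntermediateField.restrict l1) (IntermediateField.restrict l2) ?_ ?_
    (h6 k _ _ (IntermediateField.restrictAlgEquiv l1) hF)
    (h6 k _ _ (IntermediateField.restrictAlgEquiv l2) hF')
  · apply IntermediateField.lift_injective
    rw [IntermediateField.lift_sup, IntermediateField.lift_restrict,
      IntermediateField.lift_restrict, IntermediateField.lift_top]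
  · let a := Module.Basis.ofVectorSpace k ↥(IntermediateField.restrict l1)
    let b := Module.Basis.ofVectorSpace k ↥(IntermediateField.restrict l2)
    apply IntermediateField.LinearDisjoint.of_basis_mul a b
    have ha : LinearIndependent k (fun i => (IntermediateField.restrictAlgEquiv l1).symm (a i)) :=
      a.linearIndependent.map' (IntermediateField.restrictAlgEquiv l1).symm.toLinearMap
        (LinearMap.ker_eq_bot.2 (IntermediateField.restrictAlgEquiv l1).symm.injective)
    have hb : LinearIndependent k (fun i => (IntermediateField.restrictAlgEquiv l2).symm (b i)) :=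
      b.linearIndependent.map' (IntermediateField.restrictAlgEquiv l2).symm.toLinearMap
        (LinearMap.ker_eq_bot.2 (IntermediateField.restrictAlgEquiv l2).symm.injective)
    have hab := hd.linearIndependent_mul ha hb
    have c1 : ∀ y : ↥(IntermediateField.restrict l1),
        (((IntermediateField.restrictAlgEquiv l1).symm y : F) : M) = ((y : ↥(F ⊔ F')) : M) := by
      intro y
      obtain ⟨z, rfl⟩ := (IntermediateField.restrictAlgEquiv l1).surjective y
      rw [AlgEquiv.symm_apply_apply]
      rfl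
    have c2 : ∀ y : ↥(IntermediateField.restrict l2),
        (((IntermediateField.restrictAlgEquiv l2).symm y : F') : M) = ((y : ↥(F ⊔ F')) : M) := by
      intro y
      obtain ⟨z, rfl⟩ := (IntermediateField.restrictAlgEquiv l2).surjective y
      rw [AlgEquiv.symm_apply_apply]
      rfl
    apply LinearIndependent.of_comp (F ⊔ F').val.toLinearMap
    have hfun : (fun i : _ × _ => (((IntermediateField.restrictAlgEquiv l1).symm (a i.1) : F) : M)
        * (((IntermediateField.restrictAlgEquiv l2).symm (b i.2) : F') : M))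
        = (F ⊔ F').val.toLinearMap ∘ fun i => ((a i.1 : ↥(F ⊔ F')) * (b i.2 : ↥(F ⊔ F'))) := by
      funext i
      rw [c1, c2]
      rfl
    rw [hfun] at hab
    exact hab

theorem finite_permGrp {k K M : Type u} [Field k] [Field K] [Algebra k K] [Field M] [Algebra k M]
    {I : Type} [Fintype I] (e : I → K →ₐ[k] M) (hg : ⨆ i, (e i).fieldRange = ⊤)
    (P : Subgroup (Equiv.Perm I)) : Finite (permGrp e P) := by
  classical
  choose g hgP hg2 using fun σ : permGrp e P => σ.2
  apply Finite.of_injective g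
  intro σ τ h
  apply Subtype.ext
  apply AlgEquiv.ext
  intro x
  have := hom_eq_of_gen e hg σ.1.toAlgHom τ.1.toAlgHom (by
    intro i y
    change σ.1 (e i y) = τ.1 (e i y)
    rw [hg2 σ i y, hg2 τ i y, h]) x
  exact this

theorem sum_stm (h1 : LiftStm.{u}) (h2 : GroupStm.{u}) (h3 : ResStm.{u}) (h4 : GalStm.{u})
    (h5 : ProdStm.{u}) (h6 : IsoStm.{u}) : SumStm.{u} := by
  intro k _ ι ι' _ _ P P' hP hP' K M _ _ _ _ e hd hg hK
  classical
  let f : ι ⊕ ι' → Bool := Sum.elim (fun _ => true) (fun _ => false)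
  let L : Bool → IntermediateField k M := fun j => ⨆ i : {i // f i = j}, (e i).fieldRange
  have hL1 : L true = ⨆ i, (e (Sum.inl i)).fieldRange := by
    apply le_antisymm
    · refine iSup_le ?_
      rintro ⟨i, hi⟩
      rcases i with i | i
      · exact le_iSup (fun i => (e (Sum.inl i)).fieldRange) i
      · simp [f] at hi
    · refine iSup_le fun i => ?_
      exact le_iSup (fun i : {i // f i = true} => (e i).fieldRange) ⟨Sum.inl i, rfl⟩
  have hL2 : L false = ⨆ i, (e (Sum.inr i)).fieldRange := by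
    apply le_antisymm
    · refine iSup_le ?_
      rintro ⟨i, hi⟩
      rcases i with i | i
      · simp [f] at hi
      · exact le_iSup (fun i => (e (Sum.inr i)).fieldRange) i
    · refine iSup_le fun i => ?_
      exact le_iSup (fun i : {i // f i = false} => (e i).fieldRange) ⟨Sum.inr i, rfl⟩
  have hLd : (L true).LinearDisjoint (L false) :=
    linDis_of_ldis L (h2 k M (ι ⊕ ι') Bool (fun _ => K) e hd f)
  let G1 : Subgroup (M ≃ₐ[k] M) := permGrp e (prodGrp P ⊥)
  let G2 : Subgroup (M ≃ₐ[k] M) := permGrp e (prodGrp ⊥ P')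
  let G : Bool → Subgroup (M ≃ₐ[k] M) := fun j => match j with
    | true => G1
    | false => G2
  have s1 : SPM k ↥(L true ⊓ IntermediateField.fixedField G1) := by
    refine block h1 h3 h6 e hd Sum.inl Sum.inl_injective P hP G1 ?_ ?_ hK (L true) hL1
    · rintro σ ⟨φ, ⟨g, hgP, g', hg', q1, q2⟩, hσ⟩
      refine ⟨g, hgP, fun i x => ?_⟩
      rw [hσ, q1]
    · intro g hgP
      obtain ⟨σ, hσ⟩ := h1 k K M (ι ⊕ ι') e hd hg (Equiv.sumCongr g 1)
      exact ⟨σ, ⟨Equiv.sumCongr g 1, ⟨g, hgP, 1, Subgroup.mem_bot.2 rfl, fun i => rfl,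
        fun i => rfl⟩, hσ⟩, fun i x => hσ (Sum.inl i) x⟩
  have s2 : SPM k ↥(L false ⊓ IntermediateField.fixedField G2) := by
    refine block h1 h3 h6 e hd Sum.inr Sum.inr_injective P' hP' G2 ?_ ?_ hK (L false) hL2
    · rintro σ ⟨φ, ⟨g, hgP, g', hg', q1, q2⟩, hσ⟩
      refine ⟨g', hg', fun i x => ?_⟩
      rw [hσ, q2]
    · intro g hgP
      obtain ⟨σ, hσ⟩ := h1 k K M (ι ⊕ ι') e hd hg (Equiv.sumCongr 1 g)
      exact ⟨σ, ⟨Equiv.sumCongr 1 g, ⟨1, Subgroup.mem_bot.2 rfl, g, hgP, fun i => rfl,
        fun i => rfl⟩, hσ⟩, fun i x => hσ (Sum.inr i) x⟩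
  have hfin : ∀ j, Finite (G j) := by
    intro j
    cases j
    · exact finite_permGrp e hg _
    · exact finite_permGrp e hg _
  have hmaps : ∀ j, ∀ σ ∈ G j, ∀ x ∈ L j, σ x ∈ L j := by
    intro j σ hσ x hx
    have hc : L j ≤ (L j).comap σ.toAlgHom := by
      cases j
      · rw [hL2]
        refine iSup_le fun i => ?_
        rintro _ ⟨y, rfl⟩
        obtain ⟨φ, ⟨g, hgP, g', hg', q1, q2⟩, hσ⟩ := hσ
        change σ (e (Sum.inr i) y) ∈ (⨆ i, (e (Sum.inr i)).fieldRange)
        rw [hσ, q2]
        exact (le_iSup (fun i => (e (Sum.inr i)).fieldRange) (g' i)) ⟨y, rfl⟩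
      · rw [hL1]
        refine iSup_le fun i => ?_
        rintro _ ⟨y, rfl⟩
        obtain ⟨φ, ⟨g, hgP, g', hg', q1, q2⟩, hσ⟩ := hσ
        change σ (e (Sum.inl i) y) ∈ (⨆ i, (e (Sum.inl i)).fieldRange)
        rw [hσ, q1]
        exact (le_iSup (fun i => (e (Sum.inl i)).fieldRange) (g i)) ⟨y, rfl⟩
    exact hc hx
  have hfixes : ∀ j j', j ≠ j' → ∀ σ ∈ G j, ∀ x ∈ L j', σ x = x := by
    intro j j' hjj σ hσ x hx
    have hc : L j' ≤ eqField σ.toAlgHom (AlgHom.id k M) := by
      cases j <;> cases j'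
      · exact absurd rfl hjj
      · rw [hL1]
        refine iSup_le fun i => ?_
        rintro _ ⟨y, rfl⟩
        obtain ⟨φ, ⟨g, hgP, g', hg', q1, q2⟩, hσ⟩ := hσ
        change σ (e (Sum.inl i) y) = e (Sum.inl i) y
        rw [hσ, q1, Subgroup.mem_bot.1 hgP]
        rfl
      · rw [hL2]
        refine iSup_le fun i => ?_
        rintro _ ⟨y, rfl⟩
        obtain ⟨φ, ⟨g, hgP, g', hg', q1, q2⟩, hσ⟩ := hσ
        change σ (e (Sum.inr i) y) = e (Sum.inr i) y
        rw [hσ, q2, Subgroup.mem_bot.1 hg']
        rfl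
      · exact absurd rfl hjj
    exact hc hx
  have htop : ⨆ j, L j = ⊤ := by
    rw [eq_top_iff, ← hg]
    refine iSup_le fun i => ?_
    exact (le_iSup (fun i' : {i' // f i' = f i} => (e i').fieldRange) ⟨i, rfl⟩).trans
      (le_iSup L (f i))
  have hgal := h4 k M Bool G L hmaps hfixes htop
  have hG : (⨆ j, G j) = permGrp e (prodGrp P P') := by
    apply le_antisymm
    · refine iSup_le fun j => ?_
      cases j
      · rintro σ ⟨φ, ⟨g, hgP, g', hg', q1, q2⟩, hσ⟩
        rw [Subgroup.mem_bot] at hgP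
        exact ⟨φ, ⟨g, hgP ▸ P.one_mem, g', hg', q1, q2⟩, hσ⟩
      · rintro σ ⟨φ, ⟨g, hgP, g', hg', q1, q2⟩, hσ⟩
        rw [Subgroup.mem_bot] at hg'
        exact ⟨φ, ⟨g, hgP, g', hg' ▸ P'.one_mem, q1, q2⟩, hσ⟩
    · rintro σ ⟨φ, ⟨g, hgP, g', hg', q1, q2⟩, hσ⟩
      obtain ⟨σ1, hσ1⟩ := h1 k K M (ι ⊕ ι') e hd hg (Equiv.sumCongr g 1)
      obtain ⟨σ2, hσ2⟩ := h1 k K M (ι ⊕ ι') e hd hg (Equiv.sumCongr 1 g')
      have m1 : σ1 ∈ G true := ⟨Equiv.sumCongr g 1, ⟨g, hgP, 1, Subgroup.mem_bot.2 rfl,
        fun i => rfl, fun i => rfl⟩, hσ1⟩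
      have m2 : σ2 ∈ G false := ⟨Equiv.sumCongr 1 g', ⟨1, Subgroup.mem_bot.2 rfl, g', hg',
        fun i => rfl, fun i => rfl⟩, hσ2⟩
      have hprod : σ = σ1 * σ2 := by
        apply AlgEquiv.ext
        intro y
        have := hom_eq_of_gen e hg σ.toAlgHom (σ1 * σ2).toAlgHom (by
          intro i y
          change σ (e i y) = σ1 (σ2 (e i y))
          rw [hσ2, hσ1, hσ]
          rcases i with i | i
          · rw [q1]; rfl
          · rw [q2]; rfl) y
        exact this
      rw [hprod]
      exact Subgroup.mul_mem _ (le_iSup G true m1) (le_iSup G false m2)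
  rw [hG] at hgal
  have hsup : (⨆ j, L j ⊓ IntermediateField.fixedField (G j))
      = (L true ⊓ IntermediateField.fixedField G1) ⊔ (L false ⊓ IntermediateField.fixedField G2) :=
    iSup_bool_eq
  rw [hsup] at hgal
  have hmain := sup_spm h5 h6 (L true ⊓ IntermediateField.fixedField G1)
    (L false ⊓ IntermediateField.fixedField G2)
    (hLd.of_le inf_le_left inf_le_left) s1 s2
  exact h6 k _ _ (IntermediateField.equivOfEq hgal.symm) hmain

end Pool.Agent.W632.Wr
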